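import Mathlib

set_option autoImplicit false

open Filter Topology

namespace Pool.Agent.Helper10.OddDensity

/-- `partCount a n k` is the number of partitions of `n` into parts taken from
`a 0, ..., a (k-1)`, equal values counting as different parts: the number of vectors
`(m 0, ..., m (k-1))` of multiplicities with `m 0 * a 0 + ... + m (k-1) * a (k-1) = n`. -/
noncomputable def partCount (a : ℕ → ℕ) (n k : ℕ) : ℕ :=
  Nat.card {m : Fin k → ℕ // ∑ i, m i * a i = n}

/-- The number of `n ≤ N` for which `partCount a n k` is odd. -/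
noncomputable def oddCount (a : ℕ → ℕ) (k N : ℕ) : ℕ :=
  Nat.card {n : ℕ // n ≤ N ∧ Odd (partCount a n k)}

/-- The odd density of `n ↦ partCount a n k` exists and equals `δ`. -/
def HasOddDensity (a : ℕ → ℕ) (k : ℕ) (δ : ℝ) : Prop :=
  Tendsto (fun N : ℕ => (oddCount a k N : ℝ) / N) atTop (𝓝 δ)

end Pool.Agent.Helper10.OddDensity
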