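import Mathlib
import Pool.Agent.Helper10.OddDensity.Defs

set_option autoImplicit false

open Filter Topology Polynomial

namespace Pool.Agent.Helper10.OddDensity

lemma finite_sols (a : ℕ → ℕ) (k n : ℕ) (ha : ∀ i < k, 0 < a i) :
    Finite {m : Fin k → ℕ // ∑ i, m i * a i = n} := by
  have : Set.Finite {m : Fin k → ℕ | ∑ i, m i * a i = n} := by
    apply Set.Finite.subset (Set.finite_Iic (fun _ : Fin k => n))
    intro m hm
    replace hm : ∑ i, m i * a i = n := hm
    simp only [Set.mem_Iic]
    intro i
    have h1 : m i * a i ≤ ∑ i, m i * a i :=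
      Finset.single_le_sum (f := fun i : Fin k => m i * a i) (fun _ _ => Nat.zero_le _) (Finset.mem_univ i)
    have h2 := ha i i.2
    have h3 : m i ≤ m i * a i := Nat.le_mul_of_pos_right _ h2
    show m i ≤ n
    omega
  exact this

lemma partCount_zero (a : ℕ → ℕ) (n : ℕ) : partCount a n 0 = if n = 0 then 1 else 0 := by
  unfold partCount
  split_ifs with h
  · subst h
    simp
  · have : IsEmpty {m : Fin 0 → ℕ // ∑ i, m i * a i = n} := by
      constructor
      rintro ⟨m, hm⟩
      simp at hm
      exact h hm.symm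
    exact Nat.card_of_isEmpty

lemma partCount_succ (a : ℕ → ℕ) (n k : ℕ) (ha : ∀ i < k + 1, 0 < a i) :
    partCount a n (k+1) = partCount a n k + (if a k ≤ n then partCount a (n - a k) (k+1) else 0) := by
  classical
  have hfin := finite_sols a (k+1) n ha
  have hfin' := finite_sols a (k+1) (n - a k) ha
  have hfin0 := finite_sols a k n (fun i hi => ha i (by omega))
  unfold partCount
  -- split on last coordinate zero
  have e1 : {m : Fin (k+1) → ℕ // ∑ i, m i * a i = n} ≃
      {m : {m : Fin (k+1) → ℕ // ∑ i, m i * a i = n} // m.1 (Fin.last k) = 0} ⊕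
      {m : {m : Fin (k+1) → ℕ // ∑ i, m i * a i = n} // ¬ m.1 (Fin.last k) = 0} :=
    (Equiv.sumCompl _).symm
  rw [Nat.card_congr e1, Nat.card_sum]
  congr 1
  · apply Nat.card_congr
    refine ⟨fun m => ⟨fun i => m.1.1 (Fin.castSucc i), ?_⟩, fun m => ⟨⟨Fin.snoc m.1 0, ?_⟩, ?_⟩, ?_, ?_⟩
    · have h := m.1.2
      rw [Fin.sum_univ_castSucc] at h
      rw [m.2] at h
      simpa using h
    · rw [Fin.sum_univ_castSucc]
      simp [m.2]
    · simp
    · intro m
      ext i
      refine Fin.lastCases ?_ (fun i => ?_) i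
      · simp [m.2]
      · simp
    · intro m
      ext i
      simp
  · split_ifs with hn
    · apply Nat.card_congr
      refine ⟨fun m => ⟨Function.update m.1.1 (Fin.last k) (m.1.1 (Fin.last k) - 1), ?_⟩,
        fun m => ⟨⟨Function.update m.1 (Fin.last k) (m.1 (Fin.last k) + 1), ?_⟩, ?_⟩, ?_, ?_⟩
      · have h := m.1.2
        have h2 := m.2
        rw [Fin.sum_univ_castSucc] at h ⊢
        simp only [Function.update_self]
        have h3 : ∀ i : Fin k, Function.update m.1.1 (Fin.last k) (m.1.1 (Fin.last k) - 1) i.castSucc = m.1.1 i.castSucc := by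
          intro i
          rw [Function.update_of_ne]
          exact (Fin.castSucc_lt_last i).ne
        simp only [h3]
        obtain ⟨t, ht⟩ := Nat.exists_eq_succ_of_ne_zero h2
        rw [ht] at h ⊢
        simp only [Nat.succ_eq_add_one, Nat.add_sub_cancel, Fin.val_last] at h ⊢
        rw [add_mul, one_mul] at h
        omega
      · have h := m.2
        rw [Fin.sum_univ_castSucc] at h ⊢
        simp only [Function.update_self]
        have h3 : ∀ i : Fin k, Function.update m.1 (Fin.last k) (m.1 (Fin.last k) + 1) i.castSucc = m.1 i.castSucc := by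
          intro i
          rw [Function.update_of_ne]
          exact (Fin.castSucc_lt_last i).ne
        simp only [h3]
        simp only [Fin.val_last] at h ⊢
        rw [add_mul, one_mul]
        omega
      · simp
      · intro m
        ext i
        refine Fin.lastCases ?_ (fun i => ?_) i
        · simp
          have := m.2
          omega
        · simp
      · intro m
        ext i
        refine Fin.lastCases ?_ (fun i => ?_) i
        · simp
        · simp
    · have : IsEmpty {m : {m : Fin (k+1) → ℕ // ∑ i, m i * a i = n} // ¬ m.1 (Fin.last k) = 0} := by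
        constructor
        rintro ⟨⟨m, hm⟩, h2⟩
        simp only at h2
        rw [Fin.sum_univ_castSucc] at hm
        simp only [Fin.val_last] at hm
        have : a k ≤ m (Fin.last k) * a k := Nat.le_mul_of_pos_left _ (Nat.pos_of_ne_zero h2)
        omega
      simp



lemma gf (R : Type*) [CommRing R] (a : ℕ → ℕ) (k : ℕ) (ha : ∀ i < k, 0 < a i) :
    (PowerSeries.mk fun n => (partCount a n k : R)) *
      ∏ i ∈ Finset.range k, (1 - (PowerSeries.X : PowerSeries R) ^ a i) = 1 := by
  induction k with
  | zero =>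
    ext n
    simp only [Finset.range_zero, Finset.prod_empty, mul_one, PowerSeries.coeff_mk, partCount_zero,
      PowerSeries.coeff_one]
    split_ifs <;> simp
  | succ k ih =>
    have ih' := ih (fun i hi => ha i (by omega))
    rw [Finset.prod_range_succ, mul_comm (∏ i ∈ Finset.range k, _) _, ← mul_assoc]
    have key : (PowerSeries.mk fun n => (partCount a n (k + 1) : R)) *
        (1 - (PowerSeries.X : PowerSeries R) ^ a k) = PowerSeries.mk fun n => (partCount a n k : R) := by
      ext n
      rw [mul_sub, mul_one, map_sub, PowerSeries.coeff_mul_X_pow']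
      simp only [PowerSeries.coeff_mk]
      rw [partCount_succ a n k ha]
      split_ifs <;> simp
    rw [key, ih']

lemma tendsto_avg (f : ℕ → ℝ) (P n0 : ℕ) (hP : 0 < P) (m : ℝ)
    (hper : ∀ n ≥ n0, f (n + P) = f n) (hm : ∑ i ∈ Finset.range P, f (n0 + i) = P * m) :
    Tendsto (fun N : ℕ => (∑ n ∈ Finset.range (N + 1), f n) / (N : ℝ)) atTop (𝓝 m) := by
  set S : ℕ → ℝ := fun N => ∑ n ∈ Finset.range N, (f n - m) with hS
  have hW : ∀ N, n0 ≤ N → ∑ i ∈ Finset.range P, f (N + i) = P * m := by
    intro N hN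
    induction N, hN using Nat.le_induction with
    | base => exact hm
    | succ N hN ih =>
      have h1 : ∑ i ∈ Finset.range (P + 1), f (N + i) = ∑ i ∈ Finset.range P, f (N + i) + f (N + P) := by
        rw [Finset.sum_range_succ]
      have h2 : ∑ i ∈ Finset.range (P + 1), f (N + i) = ∑ i ∈ Finset.range P, f (N + 1 + i) + f N := by
        rw [Finset.sum_range_succ']
        simp only [add_zero]
        congr 1
        apply Finset.sum_congr rfl
        intro i _
        congr 1
        ring
      rw [hper N hN] at h1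
      linarith
  have hSper : ∀ N, n0 ≤ N → S (N + P) = S N := by
    intro N hN
    simp only [hS]
    rw [Finset.sum_range_add]
    have : ∑ x ∈ Finset.range P, (f (N + x) - m) = 0 := by
      rw [Finset.sum_sub_distrib, hW N hN]
      simp
    linarith
  obtain ⟨C, hC⟩ : ∃ C : ℝ, ∀ N, |S N| ≤ C := by
    refine ⟨∑ j ∈ Finset.range (n0 + P), |S j|, ?_⟩
    intro N
    induction N using Nat.strong_induction_on with
    | _ N ih =>
      by_cases h : N < n0 + P
      · exact Finset.single_le_sum (f := fun j => |S j|) (fun _ _ => abs_nonneg _) (Finset.mem_range.2 h)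
      · push Not at h
        have h1 := ih (N - P) (by omega)
        have h2 := hSper (N - P) (by omega)
        rw [Nat.sub_add_cancel (by omega)] at h2
        rwa [h2]
  have hkey : ∀ N : ℕ, 0 < N → (∑ n ∈ Finset.range (N + 1), f n) / (N : ℝ) = S (N + 1) / N + m + m / N := by
    intro N hN
    have : ∑ n ∈ Finset.range (N + 1), f n = S (N + 1) + (N + 1) * m := by
      simp only [hS]
      rw [Finset.sum_sub_distrib]
      simp
    rw [this]
    have hN' : (N : ℝ) ≠ 0 := by positivity
    field_simp
    ring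
  have hlim : Tendsto (fun N : ℕ => S (N + 1) / N + m + m / N) atTop (𝓝 (0 + m + 0)) := by
    refine Tendsto.add (Tendsto.add ?_ tendsto_const_nhds) (tendsto_const_div_atTop_nhds_zero_nat m)
    apply squeeze_zero_norm (a := fun N : ℕ => C / N)
    · intro N
      rw [Real.norm_eq_abs, abs_div, Nat.abs_cast]
      exact div_le_div_of_nonneg_right (hC _) (Nat.cast_nonneg _)
    · exact tendsto_const_div_atTop_nhds_zero_nat C
  rw [zero_add, add_zero] at hlim
  refine hlim.congr' ?_
  filter_upwards [eventually_gt_atTop 0] with N hN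
  exact (hkey N hN).symm

open Classical in
lemma oddCount_eq (a : ℕ → ℕ) (k N : ℕ) :
    (oddCount a k N : ℝ) = ∑ n ∈ Finset.range (N + 1), (if Odd (partCount a n k) then (1 : ℝ) else 0) := by
  unfold oddCount
  rw [Finset.sum_boole]
  norm_cast
  apply Nat.subtype_card
  intro n
  simp
  


lemma coeff_mul_mk_one (R : (ZMod 2)[X]) (m : ℕ) (hm : R.natDegree ≤ m) :
    PowerSeries.coeff m ((R : PowerSeries (ZMod 2)) * PowerSeries.mk 1) = R.eval 1 := by
  rw [PowerSeries.coeff_mul, Finset.Nat.sum_antidiagonal_eq_sum_range_succ_mk,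
    eval_eq_sum_range' (n := m + 1) (by omega)]
  apply Finset.sum_congr rfl
  intro i _
  simp

lemma coe_prod_one_sub (a : ℕ → ℕ) (k : ℕ) :
    ((∏ i ∈ Finset.range k, (1 - X ^ a i) : (ZMod 2)[X]) : PowerSeries (ZMod 2)) =
      ∏ i ∈ Finset.range k, (1 - (PowerSeries.X : PowerSeries (ZMod 2)) ^ a i) := by
  have : ∀ p : (ZMod 2)[X], (p : PowerSeries (ZMod 2)) = Polynomial.coeToPowerSeries.ringHom p := by
    intro p; rfl
  rw [this, map_prod]
  apply Finset.prod_congr rfl
  intro i _
  rw [map_sub, map_one, map_pow]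
  simp

/-- The parity of the counting function is eventually periodic. -/
lemma eventually_periodic (a : ℕ → ℕ) (k : ℕ) (ha : ∀ i < k, 0 < a i) :
    ∃ P n0 : ℕ, 0 < P ∧ ∀ n ≥ n0, (Odd (partCount a (n + P) k) ↔ Odd (partCount a n k)) := by
  set A : ℕ := ∏ i ∈ Finset.range k, a i with hA
  have hApos : 0 < A := Finset.prod_pos (fun i hi => ha i (Finset.mem_range.1 hi))
  obtain ⟨s, hs⟩ : ∃ s : ℕ, k ≤ 2 ^ s := ⟨k, Nat.lt_two_pow_self.le⟩
  have hdvd : (∏ i ∈ Finset.range k, (1 - X ^ a i) : (ZMod 2)[X]) ∣ 1 - X ^ (A * 2 ^ s) := by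
    have h1 : (∏ i ∈ Finset.range k, (1 - X ^ a i) : (ZMod 2)[X]) ∣ ∏ i ∈ Finset.range k, (1 - X ^ A) := by
      apply Finset.prod_dvd_prod_of_dvd
      intro i hi
      obtain ⟨t, ht⟩ := Finset.dvd_prod_of_mem a hi
      rw [hA, ht, pow_mul]
      have := sub_dvd_pow_sub_pow (1 : (ZMod 2)[X]) (X ^ a i) t
      rwa [one_pow] at this
    rw [Finset.prod_const, Finset.card_range] at h1
    refine h1.trans ((pow_dvd_pow _ hs).trans ?_)
    rw [sub_pow_char_pow, one_pow, ← pow_mul]
  obtain ⟨R, hR⟩ := hdvd
  refine ⟨A * 2 ^ s, R.natDegree + 1, by positivity, ?_⟩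
  intro n hn
  have hg := gf (ZMod 2) a k ha
  have h1 : (PowerSeries.mk fun n => (partCount a n k : ZMod 2)) *
      (1 - (PowerSeries.X : PowerSeries (ZMod 2)) ^ (A * 2 ^ s)) = (R : PowerSeries (ZMod 2)) := by
    have h2 : (1 - (PowerSeries.X : PowerSeries (ZMod 2)) ^ (A * 2 ^ s)) =
        (∏ i ∈ Finset.range k, (1 - (PowerSeries.X : PowerSeries (ZMod 2)) ^ a i)) * R := by
      rw [← coe_prod_one_sub, ← Polynomial.coe_mul, ← hR]
      simp
    rw [h2, ← mul_assoc, hg, one_mul]
  have h3 := congrArg (PowerSeries.coeff (n + A * 2 ^ s)) h1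
  rw [mul_sub, mul_one, map_sub, PowerSeries.coeff_mul_X_pow, PowerSeries.coeff_mk,
    PowerSeries.coeff_mk, Polynomial.coeff_coe, Polynomial.coeff_eq_zero_of_natDegree_lt (by omega),
    sub_eq_zero] at h3
  rw [← ZMod.natCast_eq_one_iff_odd, ← ZMod.natCast_eq_one_iff_odd, h3]

open Classical in
/-- The odd density always exists. -/
lemma exists_hasOddDensity (a : ℕ → ℕ) (k : ℕ) (ha : ∀ i < k, 0 < a i) :
    ∃ δ : ℝ, HasOddDensity a k δ := by
  obtain ⟨P, n0, hP, h⟩ := eventually_periodic a k ha
  refine ⟨(∑ i ∈ Finset.range P, (if Odd (partCount a (n0 + i) k) then (1 : ℝ) else 0)) / P, ?_⟩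
  unfold HasOddDensity
  simp only [oddCount_eq]
  apply tendsto_avg _ P n0 hP
  · intro n hn
    simp only [h n hn]
  · field_simp

end Pool.Agent.Helper10.OddDensity
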