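import Mathlib

set_option autoImplicit false

namespace Pool.Agent.Helper10.OddDensity

/-- The family: sequences of positive integers with greatest common divisor `1` such that, for
all large `k`, the sum of the largest powers of `2` dividing the first `k` terms is one more than
a power of `2`. -/
def Family : Set (ℕ → ℕ) :=
  {a | (∀ i, 0 < a i) ∧ (∀ d, (∀ i, d ∣ a i) → d = 1) ∧
    ∃ K, ∀ k ≥ K, ∃ r : ℕ, ∑ i ∈ Finset.range k, 2 ^ padicValNat 2 (a i) = 2 ^ r + 1}

/-- The sequence `(b 0, b 1, b 2, 2 * b 3, 4 * b 4, 8 * b 5, ...)`. -/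
def seqOf (b : ℕ → ℕ) (i : ℕ) : ℕ := 2 ^ (i - 2) * b i

end Pool.Agent.Helper10.OddDensity
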