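import Mathlib
import Pool.Agent.Helper10.OddDensity.Basic
import Pool.Agent.Helper10.OddDensity.FamilyDefs

set_option autoImplicit false

open Filter Topology Polynomial

namespace Pool.Agent.Helper10.OddDensity

lemma one_sub_mem (k : ℕ) (b : ℕ → ℕ) (hgcd : ∀ d, (∀ i < k, d ∣ b i) → d = 1) :
    (1 - X : (ZMod 2)[X]) ∈ Ideal.span ((fun i => (1 - X ^ b i : (ZMod 2)[X])) '' (Set.Iio k)) := by
  set I := Ideal.span ((fun i => (1 - X ^ b i : (ZMod 2)[X])) '' (Set.Iio k)) with hI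
  have h1 : ∀ i < k, (Ideal.Quotient.mk I X) ^ b i = 1 := by
    intro i hi
    have : (1 - X ^ b i : (ZMod 2)[X]) ∈ I := Ideal.subset_span ⟨i, hi, rfl⟩
    have h2 := Ideal.Quotient.eq_zero_iff_mem.2 this
    rw [map_sub, map_one, map_pow, sub_eq_zero] at h2
    exact h2.symm
  have h2 : orderOf (Ideal.Quotient.mk I X) = 1 :=
    hgcd _ (fun i hi => orderOf_dvd_of_pow_eq_one (h1 i hi))
  rw [orderOf_eq_one_iff] at h2
  apply Ideal.Quotient.eq_zero_iff_mem.1
  rw [map_sub, map_one, h2, sub_self]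

lemma dvd_main (k r : ℕ) (c b : ℕ → ℕ) (B : ℕ) (hB : ∀ i < k, b i ∣ B)
    (hgcd : ∀ d, (∀ i < k, d ∣ b i) → d = 1) (hc : ∀ i < k, 0 < c i)
    (hsum : ∑ i ∈ Finset.range k, c i = r + 1) :
    (∏ i ∈ Finset.range k, (1 - X ^ b i : (ZMod 2)[X]) ^ c i) ∣ (1 - X) * (1 - X ^ B) ^ r := by
  set D : (ZMod 2)[X] := ∏ i ∈ Finset.range k, (1 - X ^ b i : (ZMod 2)[X]) ^ c i with hD
  have hbB : ∀ i < k, (1 - X ^ b i : (ZMod 2)[X]) ∣ (1 - X ^ B) := by
    intro i hi
    obtain ⟨t, ht⟩ := hB i hi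
    rw [ht, pow_mul]
    have := sub_dvd_pow_sub_pow (1 : (ZMod 2)[X]) (X ^ b i) t
    rwa [one_pow] at this
  have hgen : ∀ i < k, D ∣ (1 - X ^ b i) * (1 - X ^ B) ^ r := by
    intro i hi
    have hi' : i ∈ Finset.range k := Finset.mem_range.2 hi
    rw [hD, ← Finset.mul_prod_erase _ _ hi']
    have hs : ∑ j ∈ (Finset.range k).erase i, c j + c i = r + 1 := by
      rw [Finset.sum_erase_add _ _ hi', hsum]
    obtain ⟨t, ht⟩ := Nat.exists_eq_succ_of_ne_zero (hc i hi).ne'
    rw [ht] at hs ⊢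
    rw [pow_succ', mul_assoc]
    apply mul_dvd_mul_left
    have hr : r = t + ∑ j ∈ (Finset.range k).erase i, c j := by omega
    rw [hr, pow_add]
    apply mul_dvd_mul
    · exact pow_dvd_pow_of_dvd (hbB i hi) _
    · rw [← Finset.prod_pow_eq_pow_sum]
      apply Finset.prod_dvd_prod_of_dvd
      intro j hj
      exact pow_dvd_pow_of_dvd (hbB j (Finset.mem_range.1 (Finset.mem_of_mem_erase hj))) _
  have hmem := one_sub_mem k b hgcd
  have hall : ∀ p ∈ Ideal.span ((fun i => (1 - X ^ b i : (ZMod 2)[X])) '' (Set.Iio k)),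
      D ∣ p * (1 - X ^ B) ^ r := by
   intro p hp
   induction hp using Submodule.span_induction with
   | mem x hx =>
     obtain ⟨i, hi, rfl⟩ := hx
     exact hgen i hi
   | zero => simp
   | add x y _ _ hx hy =>
     rw [add_mul]
     exact dvd_add hx hy
   | smul a x _ hx =>
     rw [smul_eq_mul, mul_assoc]
     exact hx.mul_left a
  exact hall _ hmem

lemma geom_factor (b : ℕ) : (1 - X ^ b : (ZMod 2)[X]) = (1 - X) * ∑ j ∈ Finset.range b, X ^ j := by
  rw [mul_comm, geom_sum_mul_neg]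

lemma eval_geom (b : ℕ) (hb : Odd b) : (∑ j ∈ Finset.range b, (X : (ZMod 2)[X]) ^ j).eval 1 = 1 := by
  rw [eval_finsetSum]
  simp only [eval_pow, eval_X, one_pow, Finset.sum_const, Finset.card_range, nsmul_eq_mul, mul_one]
  exact (ZMod.natCast_eq_one_iff_odd).2 hb

lemma exists_R (k r : ℕ) (c b : ℕ → ℕ) (B : ℕ) (hBodd : Odd B) (hB : ∀ i < k, b i ∣ B)
    (hgcd : ∀ d, (∀ i < k, d ∣ b i) → d = 1) (hc : ∀ i < k, 0 < c i)
    (hsum : ∑ i ∈ Finset.range k, c i = r + 1) :
    ∃ R : (ZMod 2)[X], (1 - X) * (1 - X ^ B) ^ r =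
      (∏ i ∈ Finset.range k, (1 - X ^ b i : (ZMod 2)[X]) ^ c i) * R ∧ R.eval 1 = 1 := by
  obtain ⟨R, hR⟩ := dvd_main k r c b B hB hgcd hc hsum
  refine ⟨R, hR, ?_⟩
  have hX : (1 - X : (ZMod 2)[X]) ≠ 0 := by
    intro h
    have := congrArg (fun p => p.eval 0) h
    simp at this
  have h1 : (1 - X : (ZMod 2)[X]) ^ (r + 1) * (∑ j ∈ Finset.range B, X ^ j) ^ r =
      (1 - X : (ZMod 2)[X]) ^ (r + 1) * ((∏ i ∈ Finset.range k, (∑ j ∈ Finset.range (b i), X ^ j) ^ c i) * R) := by
    have e1 : (1 - X : (ZMod 2)[X]) ^ (r + 1) * (∑ j ∈ Finset.range B, X ^ j) ^ r =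
        (1 - X) * (1 - X ^ B) ^ r := by
      rw [geom_factor B, mul_pow, ← mul_assoc, ← pow_succ']
    rw [e1, hR, ← hsum, ← Finset.prod_pow_eq_pow_sum, ← mul_assoc, ← Finset.prod_mul_distrib]
    congr 1
    apply Finset.prod_congr rfl
    intro i _
    rw [geom_factor (b i), mul_pow]
  have h2 := mul_left_cancel₀ (pow_ne_zero _ hX) h1
  have h3 := congrArg (fun p => p.eval 1) h2
  simp only [eval_pow, eval_mul, eval_prod] at h3
  rw [eval_geom B hBodd, one_pow] at h3
  rw [Finset.prod_congr rfl (g := fun _ => (1 : ZMod 2))] at h3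
  · simpa using h3.symm
  · intro i hi
    have hi' := Finset.mem_range.1 hi
    rw [eval_geom (b i), one_pow]
    exact hBodd.of_dvd_nat (hB i hi')



lemma zmod_two_flip : ∀ x y : ZMod 2, x - y = 1 → (x = 1 ↔ ¬ y = 1) := by decide

lemma flip (a : ℕ → ℕ) (k r : ℕ) (hpos : ∀ i < k, 0 < a i)
    (hgcd : ∀ d, (∀ i < k, d ∣ a i) → d = 1)
    (hsum : ∑ i ∈ Finset.range k, 2 ^ padicValNat 2 (a i) = 2 ^ r + 1) :
    ∃ L n0 : ℕ, 0 < L ∧ ∀ n ≥ n0, (Odd (partCount a (n + L) k) ↔ ¬ Odd (partCount a n k)) := by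
  have : Fact (Nat.Prime 2) := ⟨Nat.prime_two⟩
  set c : ℕ → ℕ := fun i => 2 ^ padicValNat 2 (a i) with hc
  set b : ℕ → ℕ := fun i => a i / 2 ^ padicValNat 2 (a i) with hb
  have hab : ∀ i, a i = b i * c i := by
    intro i
    simp only [hb, hc]
    rw [Nat.div_mul_cancel pow_padicValNat_dvd]
  have hbodd : ∀ i < k, Odd (b i) := by
    intro i hi
    rw [← Nat.not_even_iff_odd, even_iff_two_dvd]
    intro h
    have h2 : 2 ^ (padicValNat 2 (a i) + 1) ∣ a i := by
      have h3 : a i = c i * b i := by rw [hab i, mul_comm]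
      have h4 : 2 ^ (padicValNat 2 (a i) + 1) = c i * 2 := by simp only [hc]; rw [pow_succ]
      rw [h4, h3]
      exact Nat.mul_dvd_mul (dvd_refl _) h
    exact pow_succ_padicValNat_not_dvd (hpos i hi).ne' h2
  set B : ℕ := ∏ i ∈ Finset.range k, b i with hB
  have hBodd : Odd B := by
    rw [hB]
    apply Finset.prod_induction _ Odd (fun _ _ h1 h2 => h1.mul h2) odd_one
    intro i hi
    exact hbodd i (Finset.mem_range.1 hi)
  obtain ⟨R, hR, hR1⟩ := exists_R k (2 ^ r) c b B hBodd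
    (fun i hi => Finset.dvd_prod_of_mem b (Finset.mem_range.2 hi))
    (fun d hd => hgcd d (fun i hi => by rw [hab i]; exact (hd i hi).mul_right _))
    (fun i _ => by simp only [hc]; positivity) hsum
  have hprod : (∏ i ∈ Finset.range k, (1 - X ^ b i : (ZMod 2)[X]) ^ c i) =
      ∏ i ∈ Finset.range k, (1 - X ^ a i) := by
    apply Finset.prod_congr rfl
    intro i _
    simp only [hc]
    rw [sub_pow_char_pow, one_pow, ← pow_mul, ← hab i]
  rw [hprod, sub_pow_char_pow, one_pow, ← pow_mul] at hR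
  have hg := gf (ZMod 2) a k hpos
  set G : PowerSeries (ZMod 2) := PowerSeries.mk fun n => (partCount a n k : ZMod 2) with hG
  set L : ℕ := B * 2 ^ r with hL
  have hmk : (PowerSeries.mk 1 : PowerSeries (ZMod 2)) * (1 - PowerSeries.X) = 1 :=
    PowerSeries.mk_one_mul_one_sub_eq_one _
  have h1 : G * (1 - (PowerSeries.X : PowerSeries (ZMod 2)) ^ L) = (R : PowerSeries (ZMod 2)) * PowerSeries.mk 1 := by
    have h2 : (1 - PowerSeries.X) * (1 - (PowerSeries.X : PowerSeries (ZMod 2)) ^ L) =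
        (∏ i ∈ Finset.range k, (1 - (PowerSeries.X : PowerSeries (ZMod 2)) ^ a i)) * (R : PowerSeries (ZMod 2)) := by
      rw [← coe_prod_one_sub, ← Polynomial.coe_mul, ← hR]
      simp
    calc G * (1 - (PowerSeries.X : PowerSeries (ZMod 2)) ^ L)
        = (PowerSeries.mk 1 * (1 - PowerSeries.X)) * (G * (1 - (PowerSeries.X : PowerSeries (ZMod 2)) ^ L)) := by
          rw [hmk, one_mul]
      _ = PowerSeries.mk 1 * G * ((1 - PowerSeries.X) * (1 - (PowerSeries.X : PowerSeries (ZMod 2)) ^ L)) := by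
          ring
      _ = PowerSeries.mk 1 * G * ((∏ i ∈ Finset.range k, (1 - (PowerSeries.X : PowerSeries (ZMod 2)) ^ a i)) * (R : PowerSeries (ZMod 2))) := by
          rw [h2]
      _ = (G * ∏ i ∈ Finset.range k, (1 - (PowerSeries.X : PowerSeries (ZMod 2)) ^ a i)) * ((R : PowerSeries (ZMod 2)) * PowerSeries.mk 1) := by
          ring
      _ = (R : PowerSeries (ZMod 2)) * PowerSeries.mk 1 := by rw [hg, one_mul]
  refine ⟨L, R.natDegree, Nat.mul_pos hBodd.pos (by positivity), ?_⟩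
  intro n hn
  have h3 := congrArg (PowerSeries.coeff (n + L)) h1
  rw [coeff_mul_mk_one R (n + L) (by omega), hR1, mul_sub, mul_one, map_sub,
    PowerSeries.coeff_mul_X_pow, hG, PowerSeries.coeff_mk, PowerSeries.coeff_mk] at h3
  rw [← ZMod.natCast_eq_one_iff_odd, ← ZMod.natCast_eq_one_iff_odd]
  exact zmod_two_flip _ _ h3

open Classical in
/-- If `gcd (a_1, ..., a_k) = 1` and the sum of the `2`-parts of `a_1, ..., a_k` is `2 ^ r + 1`,
the odd density is exactly one half. -/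
theorem criterion (a : ℕ → ℕ) (k r : ℕ) (hpos : ∀ i < k, 0 < a i)
    (hgcd : ∀ d, (∀ i < k, d ∣ a i) → d = 1)
    (hsum : ∑ i ∈ Finset.range k, 2 ^ padicValNat 2 (a i) = 2 ^ r + 1) :
    HasOddDensity a k (1 / 2) := by
  obtain ⟨L, n0, hL, h⟩ := flip a k r hpos hgcd hsum
  unfold HasOddDensity
  simp only [oddCount_eq]
  apply tendsto_avg _ (L + L) n0 (by omega)
  · intro n hn
    rw [← add_assoc]
    simp only [h (n + L) (by omega), h n hn, not_not]
  · rw [Finset.sum_range_add, ← Finset.sum_add_distrib]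
    have : ∀ x ∈ Finset.range L, ((if Odd (partCount a (n0 + x) k) then (1 : ℝ) else 0) +
        (if Odd (partCount a (n0 + (L + x)) k) then (1 : ℝ) else 0)) = 1 := by
      intro x _
      rw [show n0 + (L + x) = n0 + x + L by ring]
      simp only [h (n0 + x) (by omega)]
      by_cases hx : Odd (partCount a (n0 + x) k) <;> simp [hx]
    rw [Finset.sum_congr rfl this]
    simp
    ring

lemma eventually_gcd (a : ℕ → ℕ) (hpos : ∀ i, 0 < a i) (hgcd : ∀ d, (∀ i, d ∣ a i) → d = 1) :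
    ∃ K, ∀ k ≥ K, ∀ d, (∀ i < k, d ∣ a i) → d = 1 := by
  have h : ∀ d, ∃ i, d ≠ 1 → ¬ d ∣ a i := by
    intro d
    by_cases hd : d = 1
    · exact ⟨0, fun h => absurd hd h⟩
    · by_contra hcon
      push Not at hcon
      exact hd (hgcd d (fun i => (hcon i).2))
  choose f hf using h
  refine ⟨1 + ∑ d ∈ (a 0).divisors, (f d + 1), ?_⟩
  intro k hk d hd
  by_contra hne
  have hd0 : d ∈ (a 0).divisors := Nat.mem_divisors.2 ⟨hd 0 (by omega), (hpos 0).ne'⟩
  have h1 : f d + 1 ≤ ∑ d ∈ (a 0).divisors, (f d + 1) :=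
    Finset.single_le_sum (f := fun d => f d + 1) (fun _ _ => Nat.zero_le _) hd0
  exact hf d hne (hd (f d) (by omega))

lemma seqOf_val (b : ℕ → ℕ) (hb : ∀ i, Odd (b i)) (i : ℕ) :
    padicValNat 2 (seqOf b i) = i - 2 := by
  have : Fact (Nat.Prime 2) := ⟨Nat.prime_two⟩
  unfold seqOf
  rw [padicValNat.mul (by positivity) (hb i).pos.ne', padicValNat.prime_pow,
    padicValNat.eq_zero_of_not_dvd, add_zero]
  rw [← even_iff_two_dvd, Nat.not_even_iff_odd]
  exact hb i

lemma sum_val (k : ℕ) (hk : 2 ≤ k) : ∑ i ∈ Finset.range k, 2 ^ (i - 2) = 2 ^ (k - 2) + 1 := by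
  induction k, hk using Nat.le_induction with
  | base => decide
  | succ k hk ih =>
    rw [Finset.sum_range_succ, ih, show k + 1 - 2 = (k - 2) + 1 by omega, pow_succ]
    ring

lemma seqOf_mem (b : ℕ → ℕ) (hb : ∀ i, Odd (b i)) (hgcd : ∀ d, (∀ i, d ∣ b i) → d = 1) :
    seqOf b ∈ Family := by
  refine ⟨fun i => Nat.mul_pos (by positivity) (hb i).pos, ?_, 2, ?_⟩
  · intro d hd
    apply hgcd
    intro i
    have h0 : Odd d := by
      have h1 := hd 0
      simp only [seqOf] at h1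
      rw [show 0 - 2 = 0 from rfl, pow_zero, one_mul] at h1
      exact (hb 0).of_dvd_nat h1
    have h2 := hd i
    simp only [seqOf] at h2
    exact (Nat.Coprime.pow_right _ h0.coprime_two_right).dvd_of_dvd_mul_left h2
  · intro k hk
    refine ⟨k - 2, ?_⟩
    rw [← sum_val k hk]
    apply Finset.sum_congr rfl
    intro i _
    rw [seqOf_val b hb i]

/-- The strictly increasing members `(1, 2 m + 3, 2 m + 5, 2 (2 m + 5), 4 (2 m + 5), ...)`. -/
def special (m : ℕ) : ℕ → ℕ :=
  seqOf (fun i => if i = 0 then 1 else if i = 1 then 2 * m + 3 else 2 * m + 5)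

lemma special_mem (m : ℕ) : special m ∈ Family := by
  apply seqOf_mem
  · intro i
    split_ifs
    · exact odd_one
    · exact ⟨m + 1, by ring⟩
    · exact ⟨m + 2, by ring⟩
  · intro d hd
    have := hd 0
    simpa using this

lemma special_strictMono (m : ℕ) : StrictMono (special m) := by
  apply strictMono_nat_of_lt_succ
  intro n
  unfold special seqOf
  rcases n with _ | _ | n
  · simp
    omega
  · simp
  · simp only [Nat.add_eq_zero_iff, one_ne_zero, and_false, if_false]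
    have h1 : ¬ (n + 1 + 1 = 1) := by omega
    have h2 : ¬ (n + 1 + 1 + 1 = 1) := by omega
    simp only [h1, h2, if_false]
    apply Nat.mul_lt_mul_of_pos_right _ (by omega)
    apply Nat.pow_lt_pow_right (by omega)
    omega

lemma special_injective : Function.Injective special := by
  intro m m' h
  have := congrFun h 1
  simp [special, seqOf] at this
  exact this

/-- Every member `a` of the family has `gcd a = 1` and all its odd densities exist, are equal to
`1 / 2` for all large `k`, and so have limit `1 / 2`. The family is explicit: it contains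
`(b 0, b 1, b 2, 2 * b 3, 4 * b 4, 8 * b 5, ...)` for all odd `b i` with greatest common
divisor `1`, and infinitely many strictly increasing sequences. -/
theorem exactHalf_main :
    (∀ a ∈ Family, ∃ δ : ℕ → ℝ, (∀ k, HasOddDensity a k (δ k)) ∧ (∃ K, ∀ k ≥ K, δ k = 1 / 2) ∧
      Tendsto δ atTop (𝓝 (1 / 2))) ∧
    (∀ b : ℕ → ℕ, (∀ i, Odd (b i)) → (∀ d, (∀ i, d ∣ b i) → d = 1) → seqOf b ∈ Family) ∧
    {a | a ∈ Family ∧ StrictMono a}.Infinite := by
  refine ⟨?_, seqOf_mem, ?_⟩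
  · rintro a ⟨hpos, hgcd, K, hK⟩
    choose δ hδ using fun k => exists_hasOddDensity a k (fun i _ => hpos i)
    obtain ⟨K', hK'⟩ := eventually_gcd a hpos hgcd
    have hhalf : ∀ k ≥ max K K', δ k = 1 / 2 := by
      intro k hk
      obtain ⟨r, hr⟩ := hK k (le_trans (le_max_left _ _) hk)
      exact tendsto_nhds_unique (hδ k)
        (criterion a k r (fun i _ => hpos i) (hK' k (le_trans (le_max_right _ _) hk)) hr)
    refine ⟨δ, hδ, ⟨_, hhalf⟩, ?_⟩
    apply tendsto_const_nhds.congr'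
    filter_upwards [eventually_ge_atTop (max K K')] with k hk
    exact (hhalf k hk).symm
  · apply Set.infinite_of_injective_forall_mem special_injective
    intro m
    exact ⟨special_mem m, special_strictMono m⟩

end Pool.Agent.Helper10.OddDensity
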