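import Mathlib

set_option autoImplicit false

namespace Pool.Agent.Helper10.OddDensity

/-- The term `a i` is odd, greater than `1` and coprime to every other term. -/
def Isolated (a : ℕ → ℕ) (i : ℕ) : Prop :=
  Odd (a i) ∧ 1 < a i ∧ ∀ j, j ≠ i → Nat.Coprime (a i) (a j)

open Classical in
/-- Sequences of positive integers for which the sum of `1 / a i` over the isolated terms
diverges. -/
def IsolatedFamily : Set (ℕ → ℕ) :=
  {a | (∀ i, 0 < a i) ∧ ¬ Summable (fun i => if Isolated a i then (1 : ℝ) / a i else 0)}

end Pool.Agent.Helper10.OddDensity
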