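import Mathlib
import Pool.Agent.Helper10.OddDensity.Basic
import Pool.Agent.Helper10.OddDensity.ExactHalf
import Pool.Agent.Helper10.OddDensity.IsolatedDefs

set_option autoImplicit false

open Filter Topology Polynomial

namespace Pool.Agent.Helper10.OddDensity

/-- sign character -/
noncomputable def sgn (x : ZMod 2) : ℝ := if x = 0 then 1 else -1

lemma zmod2_cases (x : ZMod 2) : x = 0 ∨ x = 1 := by
  revert x; decide

lemma sgn_add (x y : ZMod 2) : sgn (x + y) = sgn x * sgn y := by
  rcases zmod2_cases x with rfl | rfl <;> rcases zmod2_cases y with rfl | rfl <;> simp [sgn]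
  · have : (1 : ZMod 2) + 1 = 0 := by decide
    simp [this]

lemma sum_crt (b M : ℕ) (hb : 0 < b) (hM : 0 < M) (hco : Nat.Coprime b M) (g h : ℕ → ℝ)
    (hg : ∀ n, g (n % b) = g n) (hh : ∀ n, h (n % M) = h n) :
    ∑ n ∈ Finset.range (b * M), g n * h n =
      (∑ n ∈ Finset.range b, g n) * (∑ n ∈ Finset.range M, h n) := by
  rw [Finset.sum_mul_sum, ← Finset.sum_product']
  apply Finset.sum_nbij' (i := fun n => (n % b, n % M))
    (j := fun q => (Nat.chineseRemainder hco q.1 q.2 : ℕ) % (b * M))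
  · intro n _
    simp only [Finset.mem_product, Finset.mem_range]
    exact ⟨Nat.mod_lt _ hb, Nat.mod_lt _ hM⟩
  · intro q _
    exact Finset.mem_range.2 (Nat.mod_lt _ (Nat.mul_pos hb hM))
  · intro n hn
    have hn' := Finset.mem_range.1 hn
    have h1 := (Nat.chineseRemainder hco (n % b) (n % M)).2
    have h2 : (Nat.chineseRemainder hco (n % b) (n % M) : ℕ) ≡ n [MOD (b * M)] := by
      apply (Nat.modEq_and_modEq_iff_modEq_mul hco).1
      exact ⟨h1.1.trans (Nat.mod_modEq _ _), h1.2.trans (Nat.mod_modEq _ _)⟩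
    simp only
    rw [h2]
    exact Nat.mod_eq_of_lt hn'
  · rintro ⟨x, y⟩ hq
    simp only [Finset.mem_product, Finset.mem_range] at hq
    have h1 := (Nat.chineseRemainder hco x y).2
    simp only [Prod.mk.injEq]
    constructor
    · have e : (Nat.chineseRemainder hco x y : ℕ) % b = x % b := h1.1
      rw [Nat.mod_mul_right_mod, e]
      exact Nat.mod_eq_of_lt hq.1
    · have e : (Nat.chineseRemainder hco x y : ℕ) % M = y % M := h1.2
      rw [Nat.mod_mul_left_mod, e]
      exact Nat.mod_eq_of_lt hq.2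
  · intro n _
    simp only
    rw [hg, hh]



/-- The mean of `sgn (f n)` exists and equals `β`. -/
def HasBias (f : ℕ → ZMod 2) (β : ℝ) : Prop :=
  Tendsto (fun N : ℕ => (∑ n ∈ Finset.range (N + 1), sgn (f n)) / (N : ℝ)) atTop (𝓝 β)

/-- eventually periodic sequences have a mean, computed over one window -/
lemma hasBias_of_periodic (f : ℕ → ZMod 2) (P n0 : ℕ) (hP : 0 < P)
    (hper : ∀ n ≥ n0, f (n + P) = f n) :
    HasBias f ((∑ i ∈ Finset.range P, sgn (f (n0 + i))) / P) := by
  apply tendsto_avg _ P n0 hP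
  · intro n hn
    rw [hper n hn]
  · field_simp

/-- Means of products of eventually periodic sequences with coprime periods multiply. -/
lemma hasBias_mul (g h : ℕ → ZMod 2) (b M n0 : ℕ) (hb : 0 < b) (hM : 0 < M)
    (hco : Nat.Coprime b M) (hg : ∀ n ≥ n0, g (n + b) = g n) (hh : ∀ n ≥ n0, h (n + M) = h n)
    (β γ : ℝ) (hβ : HasBias g β) (hγ : HasBias h γ) : HasBias (fun n => g n + h n) (β * γ) := by
  have e1 := tendsto_nhds_unique hβ (hasBias_of_periodic g b n0 hb hg)
  have e2 := tendsto_nhds_unique hγ (hasBias_of_periodic h M n0 hM hh)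
  have hgm : ∀ t n, n0 ≤ n → g (n + t * b) = g n := by
    intro t
    induction t with
    | zero => intro n _; simp
    | succ t ih =>
      intro n hn
      rw [show n + (t + 1) * b = n + t * b + b by ring, hg _ (by omega), ih n hn]
  have hhm : ∀ t n, n0 ≤ n → h (n + t * M) = h n := by
    intro t
    induction t with
    | zero => intro n _; simp
    | succ t ih =>
      intro n hn
      rw [show n + (t + 1) * M = n + t * M + M by ring, hh _ (by omega), ih n hn]
  have e3 := hasBias_of_periodic (fun n => g n + h n) (b * M) n0 (Nat.mul_pos hb hM) (by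
    intro n hn
    rw [show b * M = M * b by ring, hgm M n hn]
    rw [show M * b = b * M by ring, hhm b n hn])
  have e4 := sum_crt b M hb hM hco (fun n => sgn (g (n0 + n))) (fun n => sgn (h (n0 + n)))
    (by
      intro n
      have h1 := hgm (n / b) (n0 + n % b) (by omega)
      have h2 : n0 + n % b + n / b * b = n0 + n := by
        have := Nat.mod_add_div n b
        rw [mul_comm] at this
        omega
      rw [h2] at h1
      simp only [h1])
    (by
      intro n
      have h1 := hhm (n / M) (n0 + n % M) (by omega)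
      have h2 : n0 + n % M + n / M * M = n0 + n := by
        have := Nat.mod_add_div n M
        rw [mul_comm] at this
        omega
      rw [h2] at h1
      simp only [h1])
  have e5 : (∑ i ∈ Finset.range (b * M), sgn ((fun n => g n + h n) (n0 + i))) / ((b * M : ℕ) : ℝ) = β * γ := by
    simp only [sgn_add]
    rw [e4, e1, e2]
    push_cast
    have hb' : (b : ℝ) ≠ 0 := by positivity
    have hM' : (M : ℝ) ≠ 0 := by positivity
    field_simp
  rw [e5] at e3
  exact e3

/-- `S b = 1 + X + ... + X^(b-1)` -/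
noncomputable def S (b : ℕ) : (ZMod 2)[X] := ∑ j ∈ Finset.range b, X ^ j

lemma S_factor (b : ℕ) : (1 - X ^ b : (ZMod 2)[X]) = (1 - X) * S b := geom_factor b

lemma S_eval (b : ℕ) (hb : Odd b) : (S b).eval 1 = 1 := eval_geom b hb

lemma one_sub_X_ne : (1 - X : (ZMod 2)[X]) ≠ 0 := by
  intro h
  have := congrArg (fun p => p.eval 0) h
  simp at this

lemma isCoprime_one_sub_S (b : ℕ) (hb : Odd b) : IsCoprime (1 - X) (S b) := by
  have h1 : (X - C (1 : ZMod 2)) ∣ S b - C ((S b).eval 1) := X_sub_C_dvd_sub_C_eval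
  rw [S_eval b hb] at h1
  obtain ⟨q, hq⟩ := h1
  refine ⟨q, 1, ?_⟩
  have h2 : S b = (X - 1) * q + 1 := by
    have : S b = (X - C 1) * q + C 1 := by rw [← hq]; ring
    simpa using this
  rw [h2]
  ring

lemma isCoprime_S (M b : ℕ) (hb : Odd b) (hco : Nat.Coprime b M) :
    IsCoprime (1 - X ^ M : (ZMod 2)[X]) (S b) := by
  -- the ideal generated by `1 - X ^ M` and `S b` contains `1`
  have h1 : (1 - X : (ZMod 2)[X]) ∈ Ideal.span {(1 - X ^ M : (ZMod 2)[X]), 1 - X ^ b} := by
    set I := Ideal.span {(1 - X ^ M : (ZMod 2)[X]), 1 - X ^ b} with hI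
    have h1 : (Ideal.Quotient.mk I X) ^ M = 1 := by
      have : (1 - X ^ M : (ZMod 2)[X]) ∈ I := Ideal.subset_span (by simp)
      have h2 := Ideal.Quotient.eq_zero_iff_mem.2 this
      rw [map_sub, map_one, map_pow, sub_eq_zero] at h2
      exact h2.symm
    have h2 : (Ideal.Quotient.mk I X) ^ b = 1 := by
      have : (1 - X ^ b : (ZMod 2)[X]) ∈ I := Ideal.subset_span (by simp)
      have h2 := Ideal.Quotient.eq_zero_iff_mem.2 this
      rw [map_sub, map_one, map_pow, sub_eq_zero] at h2
      exact h2.symm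
    have h3 : orderOf (Ideal.Quotient.mk I X) ∣ 1 := by
      rw [← hco]
      exact Nat.dvd_gcd (orderOf_dvd_of_pow_eq_one h2) (orderOf_dvd_of_pow_eq_one h1)
    rw [Nat.dvd_one, orderOf_eq_one_iff] at h3
    apply Ideal.Quotient.eq_zero_iff_mem.1
    rw [map_sub, map_one, h3, sub_self]
  obtain ⟨u, v, huv⟩ := Ideal.mem_span_pair.1 h1
  obtain ⟨q, r, hqr⟩ := isCoprime_one_sub_S b hb
  refine ⟨q * u, q * v * (1 - X) + r, ?_⟩
  rw [S_factor b] at huv
  calc q * u * (1 - X ^ M) + (q * v * (1 - X) + r) * S b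
      = q * (u * (1 - X ^ M) + v * ((1 - X) * S b)) + r * S b := by ring
    _ = 1 := by rw [huv, hqr]


lemma periodic_of_mul (f : ℕ → ZMod 2) (D V : (ZMod 2)[X]) (M : ℕ) (hD : D ∣ 1 - X ^ M)
    (h : PowerSeries.mk f * (D : PowerSeries (ZMod 2)) = (V : PowerSeries (ZMod 2))) :
    ∃ n0, ∀ n ≥ n0, f (n + M) = f n := by
  obtain ⟨Q, hQ⟩ := hD
  have h1 : PowerSeries.mk f * (1 - (PowerSeries.X : PowerSeries (ZMod 2)) ^ M) =
      ((V * Q : (ZMod 2)[X]) : PowerSeries (ZMod 2)) := by
    have h2 : (1 - (PowerSeries.X : PowerSeries (ZMod 2)) ^ M) = ((D * Q : (ZMod 2)[X]) : PowerSeries (ZMod 2)) := by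
      rw [← hQ]
      simp
    rw [h2, Polynomial.coe_mul, Polynomial.coe_mul, ← mul_assoc, h]
  refine ⟨(V * Q).natDegree + 1, ?_⟩
  intro n hn
  have h3 := congrArg (PowerSeries.coeff (n + M)) h1
  rw [mul_sub, mul_one, map_sub, PowerSeries.coeff_mul_X_pow, PowerSeries.coeff_mk,
    PowerSeries.coeff_mk, Polynomial.coeff_coe, Polynomial.coeff_eq_zero_of_natDegree_lt (by omega),
    sub_eq_zero] at h3
  exact h3

lemma S_coeff (b n : ℕ) : (S b).coeff n = if n < b then 1 else 0 := by
  unfold S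
  rw [finsetSum_coeff]
  simp only [coeff_X_pow]
  rw [Finset.sum_ite_eq]
  simp

lemma S_natDegree (b : ℕ) (hb : 1 < b) : (S b).natDegree = b - 1 := by
  apply le_antisymm
  · rw [natDegree_le_iff_coeff_eq_zero]
    intro n hn
    rw [S_coeff, if_neg (by omega)]
  · apply le_natDegree_of_ne_zero
    rw [S_coeff, if_pos (by omega)]
    exact one_ne_zero

lemma not_isUnit_S (b : ℕ) (hb : 1 < b) : ¬ IsUnit (S b) := by
  intro h
  have h1 := natDegree_eq_zero_of_isUnit h
  rw [S_natDegree b hb] at h1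
  omega

/-- The periodic component attached to `U / S b`. -/
lemma component (b : ℕ) (hb : 1 < b) (hodd : Odd b) (U : (ZMod 2)[X]) (hU : U ≠ 0)
    (hdeg : U.natDegree < b - 1) :
    ∃ g : ℕ → ZMod 2, (∀ n, g (n + b) = g n) ∧
      PowerSeries.mk g * ((S b : (ZMod 2)[X]) : PowerSeries (ZMod 2)) = (U : PowerSeries (ZMod 2)) ∧
      ∃ β, HasBias g β ∧ |β| ≤ 1 - 2 / (b : ℝ) := by
  set R : (ZMod 2)[X] := U * (1 - X) with hR
  have hR0 : R ≠ 0 := mul_ne_zero hU one_sub_X_ne
  have hRdeg : R.natDegree < b := by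
    have h1 : R.natDegree ≤ U.natDegree + (1 - X : (ZMod 2)[X]).natDegree := natDegree_mul_le
    have h2 : (1 - X : (ZMod 2)[X]).natDegree ≤ 1 := by
      refine (natDegree_sub_le _ _).trans ?_
      simp
    omega
  have hR1 : R.eval 1 = 0 := by simp [hR]
  have hcoef : ∀ n, b ≤ n → R.coeff n = 0 := fun n hn => coeff_eq_zero_of_natDegree_lt (by omega)
  set g : ℕ → ZMod 2 := fun n => R.coeff (n % b) with hg
  have hgper : ∀ n, g (n + b) = g n := by
    intro n
    simp only [hg, Nat.add_mod_right]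
  have h1 : PowerSeries.mk g * (1 - (PowerSeries.X : PowerSeries (ZMod 2)) ^ b) = (R : PowerSeries (ZMod 2)) := by
    ext n
    rw [mul_sub, mul_one, map_sub, PowerSeries.coeff_mul_X_pow', Polynomial.coeff_coe,
      PowerSeries.coeff_mk, PowerSeries.coeff_mk]
    by_cases hn : b ≤ n
    · rw [if_pos hn, hcoef n hn]
      have := hgper (n - b)
      rw [Nat.sub_add_cancel hn] at this
      rw [this, sub_self]
    · rw [if_neg hn, sub_zero]
      simp only [hg]
      rw [Nat.mod_eq_of_lt (by omega)]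
  refine ⟨g, hgper, ?_, _, hasBias_of_periodic g b 0 (by omega) (fun n _ => hgper n), ?_⟩
  · have h2 : (1 - (PowerSeries.X : PowerSeries (ZMod 2)) ^ b) =
        (((1 - X) * S b : (ZMod 2)[X]) : PowerSeries (ZMod 2)) := by
      rw [← S_factor b]
      simp
    have h3 : ((1 - X : (ZMod 2)[X]) : PowerSeries (ZMod 2)) ≠ 0 := by
      intro h
      exact one_sub_X_ne (Polynomial.coe_injective _ (by rw [h]; simp))
    apply mul_right_cancel₀ h3
    rw [h2, Polynomial.coe_mul] at h1
    rw [← Polynomial.coe_mul, ← hR, ← h1]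
    ring
  · have h4 : ∀ i ∈ Finset.range b, sgn (g (0 + i)) = 1 - 2 * (if R.coeff i = 1 then (1:ℝ) else 0) := by
      intro i hi
      have hi' := Finset.mem_range.1 hi
      simp only [hg, zero_add]
      rw [Nat.mod_eq_of_lt hi']
      rcases zmod2_cases (R.coeff i) with h | h
      · rw [h]; simp [sgn]
      · rw [h]; simp [sgn]; norm_num
    rw [Finset.sum_congr rfl h4, Finset.sum_sub_distrib, ← Finset.mul_sum, Finset.sum_boole]
    set w := ((Finset.range b).filter (fun i => R.coeff i = 1)).card with hw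
    have hw1 : 1 ≤ w := by
      rw [hw, Nat.one_le_iff_ne_zero, Finset.card_ne_zero]
      by_contra hcon
      rw [Finset.not_nonempty_iff_eq_empty, Finset.filter_eq_empty_iff] at hcon
      apply hR0
      ext n
      rw [coeff_zero]
      by_cases hn : b ≤ n
      · exact hcoef n hn
      · exact (zmod2_cases (R.coeff n)).resolve_right (hcon (Finset.mem_range.2 (by omega)))
    have hw2 : w ≤ b - 1 := by
      by_contra hcon
      have h5 : w = b := by
        have h6 : w ≤ b := by
          rw [hw]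
          exact (Finset.card_filter_le _ _).trans (by simp)
        omega
      have h7 : (Finset.range b).filter (fun i => R.coeff i = 1) = Finset.range b := by
        apply Finset.eq_of_subset_of_card_le (Finset.filter_subset _ _)
        rw [← hw, h5]
        simp
      have h8 : R = S b := by
        ext n
        rw [S_coeff]
        by_cases hn : n < b
        · rw [if_pos hn]
          have h9 : n ∈ (Finset.range b).filter (fun i => R.coeff i = 1) := by
            rw [h7]; exact Finset.mem_range.2 hn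
          exact (Finset.mem_filter.1 h9).2
        · rw [if_neg hn]
          exact hcoef n (by omega)
      rw [h8, S_eval b hodd] at hR1
      exact one_ne_zero hR1
    have hb' : (0 : ℝ) < b := by positivity
    have hw1' : (1 : ℝ) ≤ w := by exact_mod_cast hw1
    have hw2' : (w : ℝ) ≤ b - 1 := by
      have : w + 1 ≤ b := by omega
      have h9 : ((w + 1 : ℕ) : ℝ) ≤ b := by exact_mod_cast this
      push_cast at h9
      linarith
    rw [abs_div, abs_of_pos hb', div_le_iff₀ hb', Finset.sum_const, Finset.card_range, nsmul_eq_mul, mul_one]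
    have h10 : (1 - 2 / (b : ℝ)) * b = b - 2 := by field_simp
    rw [h10, abs_le]
    constructor <;> linarith


lemma one_sub_pow_dvd (a b : ℕ) (h : a ∣ b) : (1 - X ^ a : (ZMod 2)[X]) ∣ 1 - X ^ b := by
  obtain ⟨t, rfl⟩ := h
  rw [pow_mul]
  have := sub_dvd_pow_sub_pow (1 : (ZMod 2)[X]) (X ^ a) t
  rwa [one_pow] at this

lemma one_sub_pow_pow_dvd (A k : ℕ) : ∃ s : ℕ, (1 - X ^ A : (ZMod 2)[X]) ^ k ∣ 1 - X ^ (A * 2 ^ s) := by
  obtain ⟨s, hs⟩ : ∃ s : ℕ, k ≤ 2 ^ s := ⟨k, Nat.lt_two_pow_self.le⟩
  refine ⟨s, (pow_dvd_pow _ hs).trans ?_⟩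
  rw [sub_pow_char_pow, one_pow, ← pow_mul]

/-- A product of divisors of `1 - X ^ (b i)` and a divisor of `1 - X ^ M` divides
`1 - X ^ (M * ∏ b i * 2 ^ s)`. -/
lemma exists_period {ι : Type*} (T : Finset ι) (b : ι → ℕ) (P : ι → (ZMod 2)[X]) (M : ℕ)
    (E : (ZMod 2)[X]) (hE : E ∣ 1 - X ^ M) (hP : ∀ i ∈ T, P i ∣ 1 - X ^ b i) :
    ∃ s : ℕ, E * ∏ i ∈ T, P i ∣ 1 - X ^ (M * (∏ i ∈ T, b i) * 2 ^ s) := by
  obtain ⟨s, hs⟩ := one_sub_pow_pow_dvd (M * ∏ i ∈ T, b i) (T.card + 1)
  refine ⟨s, dvd_trans ?_ hs⟩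
  rw [pow_succ']
  apply mul_dvd_mul
  · exact hE.trans (one_sub_pow_dvd _ _ (dvd_mul_right _ _))
  · rw [← Finset.prod_const]
    apply Finset.prod_dvd_prod_of_dvd
    intro i hi
    exact (hP i hi).trans (one_sub_pow_dvd _ _ ((Finset.dvd_prod_of_mem b hi).mul_left _))

lemma bias_bound {ι : Type*} [DecidableEq ι] (b : ι → ℕ) (T : Finset ι) :
    ∀ (M : ℕ) (E W : (ZMod 2)[X]) (f : ℕ → ZMod 2), 0 < M → E ∣ 1 - X ^ M →
    (∀ i ∈ T, Odd (b i)) → (∀ i ∈ T, 1 < b i) → (∀ i ∈ T, Nat.Coprime (b i) M) →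
    (∀ i ∈ T, ∀ j ∈ T, i ≠ j → Nat.Coprime (b i) (b j)) →
    (∀ i ∈ T, IsCoprime W (S (b i))) →
    (PowerSeries.mk f) * ((E * ∏ i ∈ T, S (b i) : (ZMod 2)[X]) : PowerSeries (ZMod 2)) =
      (W : PowerSeries (ZMod 2)) →
    ∃ β, HasBias f β ∧ |β| ≤ ∏ i ∈ T, (1 - 2 / (b i : ℝ)) := by
  induction T using Finset.induction_on with
  | empty =>
    intro M E W f hM hE _ _ _ _ _ hf
    rw [Finset.prod_empty, mul_one] at hf
    obtain ⟨n0, hn0⟩ := periodic_of_mul f E W M hE hf
    refine ⟨_, hasBias_of_periodic f M n0 hM hn0, ?_⟩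
    have hM' : (0 : ℝ) < M := by positivity
    rw [Finset.prod_empty, abs_div, abs_of_pos hM', div_le_one hM']
    refine (Finset.abs_sum_le_sum_abs _ _).trans ?_
    have : ∀ x : ZMod 2, |sgn x| ≤ 1 := by
      intro x
      rcases zmod2_cases x with rfl | rfl <;> simp [sgn]
    refine (Finset.sum_le_sum (fun i _ => this _)).trans ?_
    simp
  | insert j T hj ih =>
    intro M E W f hM hE hodd hgt hcoM hco hW hf
    have hjT : j ∈ insert j T := Finset.mem_insert_self j T
    have hsub : ∀ i ∈ T, i ∈ insert j T := fun i hi => Finset.mem_insert_of_mem hi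
    set D0 : (ZMod 2)[X] := E * ∏ i ∈ T, S (b i) with hD0
    obtain ⟨s, hs⟩ := exists_period T b (fun i => S (b i)) M E hE
      (fun i _ => by rw [S_factor]; exact dvd_mul_left _ _)
    set M' := M * (∏ i ∈ T, b i) * 2 ^ s with hM'
    have hM'pos : 0 < M' := by
      rw [hM']
      refine Nat.mul_pos (Nat.mul_pos hM (Finset.prod_pos (fun i hi => ?_))) (by positivity)
      exact lt_trans zero_lt_one (hgt i (hsub i hi))
    have hcoM' : Nat.Coprime (b j) M' := by
      rw [hM']
      refine Nat.Coprime.mul_right (Nat.Coprime.mul_right (hcoM j hjT) ?_) ?_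
      · apply Nat.Coprime.prod_right
        intro i hi
        refine hco j hjT i (hsub i hi) ?_
        rintro rfl
        exact hj hi
      · exact Nat.Coprime.pow_right _ (hodd j hjT).coprime_two_right
    have hcop : IsCoprime D0 (S (b j)) := by
      obtain ⟨Q, hQ⟩ := hs
      have := isCoprime_S M' (b j) (hodd j hjT) hcoM'
      rw [hQ] at this
      exact this.of_mul_left_left
    obtain ⟨u, v, huv⟩ := hcop
    -- decomposition of `W`
    set U := (W * u) % S (b j) with hU
    set V := W * v + (W * u) / S (b j) * D0 with hV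
    have hdec : W = U * D0 + V * S (b j) := by
      have h1 : W * u = S (b j) * ((W * u) / S (b j)) + U := (EuclideanDomain.div_add_mod _ _).symm
      have h2 : U = W * u - S (b j) * ((W * u) / S (b j)) := by rw [eq_sub_iff_add_eq, add_comm]; exact h1.symm
      rw [h2, hV]
      have h3 : W = W * (u * D0 + v * S (b j)) := by rw [huv, mul_one]
      calc W = W * (u * D0 + v * S (b j)) := h3
        _ = _ := by ring
    have hWj := hW j hjT
    have hU0 : U ≠ 0 := by
      intro h0
      rw [h0, zero_mul, zero_add] at hdec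
      rw [hdec] at hWj
      exact not_isUnit_S (b j) (hgt j hjT) (isCoprime_self.1 hWj.of_mul_left_right)
    have hUdeg : U.natDegree < b j - 1 := by
      have h1 : U.degree < (S (b j)).degree := by
        apply Polynomial.degree_mod_lt
        intro h
        have := S_natDegree (b j) (hgt j hjT)
        rw [h, natDegree_zero] at this
        have := hgt j hjT
        omega
      rw [← S_natDegree (b j) (hgt j hjT)]
      exact natDegree_lt_natDegree hU0 h1
    obtain ⟨g, hgper, hg, β, hβ, hβle⟩ := component (b j) (hgt j hjT) (hodd j hjT) U hU0 hUdeg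
    set h : ℕ → ZMod 2 := fun n => f n - g n with hh
    have hSne : ((S (b j) : (ZMod 2)[X]) : PowerSeries (ZMod 2)) ≠ 0 := by
      intro h0
      have h1 : S (b j) = 0 := Polynomial.coe_injective _ (by rw [h0]; simp)
      have := S_natDegree (b j) (hgt j hjT)
      rw [h1, natDegree_zero] at this
      have := hgt j hjT
      omega
    have hmk : PowerSeries.mk h = PowerSeries.mk f - PowerSeries.mk g := by
      ext n
      simp [hh]
    have hhV : PowerSeries.mk h * (D0 : PowerSeries (ZMod 2)) = (V : PowerSeries (ZMod 2)) := by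
      apply mul_right_cancel₀ hSne
      rw [Finset.prod_insert hj] at hf
      have e1 : (E * (S (b j) * ∏ i ∈ T, S (b i)) : (ZMod 2)[X]) = D0 * S (b j) := by
        rw [hD0]; ring
      rw [e1, hdec] at hf
      simp only [Polynomial.coe_mul, Polynomial.coe_add] at hf
      rw [hmk, sub_mul, sub_mul]
      calc PowerSeries.mk f * (D0 : PowerSeries (ZMod 2)) * (S (b j) : PowerSeries (ZMod 2)) -
            PowerSeries.mk g * (D0 : PowerSeries (ZMod 2)) * (S (b j) : PowerSeries (ZMod 2))
          = PowerSeries.mk f * ((D0 : PowerSeries (ZMod 2)) * (S (b j) : PowerSeries (ZMod 2))) -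
            (PowerSeries.mk g * (S (b j) : PowerSeries (ZMod 2))) * (D0 : PowerSeries (ZMod 2)) := by ring
        _ = _ := by rw [hf, hg]; ring
    have hVco : ∀ i ∈ T, IsCoprime V (S (b i)) := by
      intro i hi
      have h1 := hW i (hsub i hi)
      obtain ⟨Q, hQ⟩ : S (b i) ∣ D0 := (Finset.dvd_prod_of_mem (fun i => S (b i)) hi).mul_left _
      have h2 : V * S (b j) = W + (S (b i)) * (-(U * Q)) := by
        rw [hdec, hQ]; ring
      have h3 : IsCoprime (V * S (b j)) (S (b i)) := by
        rw [h2]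
        exact IsCoprime.add_mul_left_left h1 _
      exact h3.of_mul_left_left
    obtain ⟨γ, hγ, hγle⟩ := ih M E V h hM hE (fun i hi => hodd i (hsub i hi))
      (fun i hi => hgt i (hsub i hi)) (fun i hi => hcoM i (hsub i hi))
      (fun i hi i' hi' => hco i (hsub i hi) i' (hsub i' hi')) hVco hhV
    obtain ⟨n0, hn0⟩ := periodic_of_mul h D0 V M' hs hhV
    refine ⟨β * γ, ?_, ?_⟩
    · have := hasBias_mul g h (b j) M' n0 (lt_trans zero_lt_one (hgt j hjT)) hM'pos hcoM'
        (fun n _ => hgper n) hn0 β γ hβ hγ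
      have e : (fun n => g n + h n) = f := by
        funext n
        simp [hh]
      rwa [e] at this
    · rw [abs_mul, Finset.prod_insert hj]
      exact mul_le_mul hβle hγle (abs_nonneg _) ((abs_nonneg _).trans hβle)


open Classical in
lemma hasOddDensity_of_bias (a : ℕ → ℕ) (k : ℕ) (β : ℝ)
    (h : HasBias (fun n => (partCount a n k : ZMod 2)) β) : HasOddDensity a k ((1 - β) / 2) := by
  unfold HasOddDensity
  have e : ∀ N : ℕ, (oddCount a k N : ℝ) =
      ((N + 1 : ℝ) - ∑ n ∈ Finset.range (N + 1), sgn (partCount a n k : ZMod 2)) / 2 := by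
    intro N
    rw [oddCount_eq]
    have : ∀ n ∈ Finset.range (N + 1), (if Odd (partCount a n k) then (1 : ℝ) else 0) =
        (1 - sgn (partCount a n k : ZMod 2)) / 2 := by
      intro n _
      by_cases ho : Odd (partCount a n k)
      · rw [if_pos ho, (ZMod.natCast_eq_one_iff_odd).2 ho]
        simp [sgn]
      · rw [if_neg ho]
        have h0 : (partCount a n k : ZMod 2) = 0 := by
          rcases zmod2_cases (partCount a n k : ZMod 2) with h | h
          · exact h
          · exact absurd ((ZMod.natCast_eq_one_iff_odd).1 h) ho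
        rw [h0]
        simp [sgn]
    rw [Finset.sum_congr rfl this, ← Finset.sum_div, Finset.sum_sub_distrib]
    simp
  have h2 : Tendsto (fun N : ℕ => ((1 : ℝ) + 1 / (N : ℝ) -
      (∑ n ∈ Finset.range (N + 1), sgn (partCount a n k : ZMod 2)) / (N : ℝ)) / 2) atTop
      (𝓝 ((1 + 0 - β) / 2)) := by
    apply Tendsto.div_const
    apply Tendsto.sub _ h
    exact tendsto_const_nhds.add tendsto_one_div_atTop_nhds_zero_nat
  rw [add_zero] at h2
  refine h2.congr' ?_
  filter_upwards [eventually_gt_atTop 0] with N hN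
  rw [e N]
  have hN' : (N : ℝ) ≠ 0 := by positivity
  field_simp

/-- Bound for the distance of the odd density from one half, in terms of the terms that are odd,
greater than `1` and coprime to all the others. -/
theorem density_bound (a : ℕ → ℕ) (k : ℕ) (hpos : ∀ i < k, 0 < a i) (T : Finset ℕ)
    (hT : T ⊆ Finset.range k)
    (hiso : ∀ i ∈ T, Odd (a i) ∧ 1 < a i ∧ ∀ j < k, j ≠ i → Nat.Coprime (a i) (a j)) :
    ∃ δ, HasOddDensity a k δ ∧ |1 - 2 * δ| ≤ ∏ i ∈ T, (1 - 2 / (a i : ℝ)) := by
  set E : (ZMod 2)[X] := (1 - X) ^ T.card * ∏ i ∈ Finset.range k \ T, (1 - X ^ a i) with hE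
  set A : ℕ := ∏ i ∈ Finset.range k \ T, a i with hA
  have hApos : 0 < A := Finset.prod_pos (fun i hi =>
    hpos i (Finset.mem_range.1 (Finset.mem_sdiff.1 hi).1))
  obtain ⟨s, hs⟩ := one_sub_pow_pow_dvd A (T.card + (Finset.range k \ T).card)
  have hEM : E ∣ 1 - X ^ (A * 2 ^ s) := by
    refine dvd_trans ?_ hs
    rw [pow_add]
    apply mul_dvd_mul
    · apply pow_dvd_pow_of_dvd
      have := one_sub_pow_dvd 1 A (one_dvd _)
      rwa [pow_one] at this
    · rw [← Finset.prod_const]
      apply Finset.prod_dvd_prod_of_dvd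
      intro i hi
      exact one_sub_pow_dvd _ _ (Finset.dvd_prod_of_mem a hi)
  have hprod : (∏ i ∈ Finset.range k, (1 - X ^ a i) : (ZMod 2)[X]) = E * ∏ i ∈ T, S (a i) := by
    rw [← Finset.prod_sdiff hT, hE]
    have : ∏ i ∈ T, (1 - X ^ a i : (ZMod 2)[X]) = (1 - X) ^ T.card * ∏ i ∈ T, S (a i) := by
      rw [← Finset.prod_const, ← Finset.prod_mul_distrib]
      apply Finset.prod_congr rfl
      intro i _
      exact S_factor _
    rw [this]
    ring
  have hg := gf (ZMod 2) a k hpos
  rw [← coe_prod_one_sub, hprod] at hg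
  obtain ⟨β, hβ, hle⟩ := bias_bound a T (A * 2 ^ s) E 1 (fun n => (partCount a n k : ZMod 2))
    (Nat.mul_pos hApos (by positivity)) hEM (fun i hi => (hiso i hi).1) (fun i hi => (hiso i hi).2.1)
    (fun i hi => by
      refine Nat.Coprime.mul_right ?_ (Nat.Coprime.pow_right _ (hiso i hi).1.coprime_two_right)
      apply Nat.Coprime.prod_right
      intro j hj
      rw [Finset.mem_sdiff] at hj
      refine (hiso i hi).2.2 j (Finset.mem_range.1 hj.1) ?_
      rintro rfl
      exact hj.2 hi)
    (fun i hi j hj hij => (hiso i hi).2.2 j (Finset.mem_range.1 (hT hj)) (Ne.symm hij))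
    (fun i _ => isCoprime_one_left)
    (by rw [hg]; simp)
  refine ⟨(1 - β) / 2, hasOddDensity_of_bias a k β hβ, ?_⟩
  have : 1 - 2 * ((1 - β) / 2) = β := by ring
  rw [this]
  exact hle


open Classical in
lemma prod_le_exp (a : ℕ → ℕ) (k : ℕ) :
    ∏ i ∈ (Finset.range k).filter (fun i => Isolated a i), (1 - 2 / (a i : ℝ)) ≤
      Real.exp (-(2 * ∑ i ∈ Finset.range k, (if Isolated a i then (1 : ℝ) / a i else 0))) := by
  rw [← Finset.sum_filter, Finset.mul_sum, ← Finset.sum_neg_distrib, Real.exp_sum]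
  apply Finset.prod_le_prod
  · intro i hi
    have h := (Finset.mem_filter.1 hi).2
    have h2 : (2 : ℝ) ≤ a i := by exact_mod_cast h.2.1
    rw [sub_nonneg, div_le_one (by linarith)]
    exact h2
  · intro i _
    have := Real.add_one_le_exp (-(2 * (1 / (a i : ℝ))))
    refine le_trans (le_of_eq ?_) this
    ring

open Classical in
theorem isolated_main (a : ℕ → ℕ) (hpos : ∀ i, 0 < a i)
    (hdiv : ¬ Summable (fun i => if Isolated a i then (1 : ℝ) / a i else 0)) :
    (∀ d, (∀ i, d ∣ a i) → d = 1) ∧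
    ∃ δ : ℕ → ℝ, (∀ k, HasOddDensity a k (δ k)) ∧ Tendsto δ atTop (𝓝 (1 / 2)) := by
  constructor
  · obtain ⟨i, hi⟩ : ∃ i, Isolated a i := by
      by_contra hcon
      push Not at hcon
      apply hdiv
      have : (fun i => if Isolated a i then (1 : ℝ) / a i else 0) = fun _ => 0 := by
        funext i
        rw [if_neg (hcon i)]
      rw [this]
      exact summable_zero
    intro d hd
    have h1 := hi.2.2 (i + 1) (by omega)
    exact Nat.eq_one_of_dvd_coprimes h1 (hd _) (hd _)
  · have h1 : ∀ k, ∃ δ, HasOddDensity a k δ ∧ |1 - 2 * δ| ≤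
        ∏ i ∈ (Finset.range k).filter (fun i => Isolated a i), (1 - 2 / (a i : ℝ)) := by
      intro k
      apply density_bound a k (fun i _ => hpos i) _ (Finset.filter_subset _ _)
      intro i hi
      have h := (Finset.mem_filter.1 hi).2
      exact ⟨h.1, h.2.1, fun j _ hj => h.2.2 j hj⟩
    choose δ hδ hle using h1
    refine ⟨δ, hδ, ?_⟩
    have h2 : Tendsto (fun k => ∑ i ∈ Finset.range k, (if Isolated a i then (1 : ℝ) / a i else 0))
        atTop atTop := by
      apply (not_summable_iff_tendsto_nat_atTop_of_nonneg ?_).1 hdiv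
      intro i
      split_ifs <;> positivity
    have h3 : Tendsto (fun k => Real.exp (-(2 * ∑ i ∈ Finset.range k,
        (if Isolated a i then (1 : ℝ) / a i else 0)))) atTop (𝓝 0) := by
      apply Real.tendsto_exp_atBot.comp
      apply tendsto_neg_atTop_atBot.comp
      exact h2.const_mul_atTop (by norm_num)
    have h4 : Tendsto (fun k => 1 - 2 * δ k) atTop (𝓝 0) := by
      apply squeeze_zero_norm _ h3
      intro k
      exact (hle k).trans (prod_le_exp a k)
    have h5 : Tendsto (fun k => (1 - (1 - 2 * δ k)) / 2) atTop (𝓝 ((1 - 0) / 2)) :=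
      (tendsto_const_nhds.sub h4).div_const 2
    simpa using h5

lemma isolated_prime (m i : ℕ) (hi : 1 ≤ m + i) : Isolated (fun j => Nat.nth Nat.Prime (m + j)) i := by
  have hinf : (Set.ofPred Nat.Prime).Infinite := Nat.infinite_setOfPred_prime
  have hp : ∀ n, (Nat.nth Nat.Prime n).Prime := fun n => Nat.nth_mem_of_infinite hinf n
  have h2 : 2 < Nat.nth Nat.Prime (m + i) := by
    have h0 : Nat.nth Nat.Prime 0 < Nat.nth Nat.Prime (m + i) := Nat.nth_strictMono hinf (by omega)
    exact lt_of_le_of_lt (hp 0).two_le h0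
  refine ⟨(hp _).odd_of_ne_two (by omega), (hp _).one_lt, ?_⟩
  intro j hj
  rw [Nat.coprime_primes (hp _) (hp _)]
  intro h
  have := Nat.nth_injective hinf h
  omega

open Classical in
lemma not_summable_primes (m : ℕ) : ¬ Summable (fun i =>
    if Isolated (fun j => Nat.nth Nat.Prime (m + j)) i then
      (1 : ℝ) / ((fun j => Nat.nth Nat.Prime (m + j)) i : ℕ) else 0) := by
  intro h
  have hinf : (Set.ofPred Nat.Prime).Infinite := Nat.infinite_setOfPred_prime
  have hp : ∀ n, (Nat.nth Nat.Prime n).Prime := fun n => Nat.nth_mem_of_infinite hinf n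
  have h1 : Summable (fun i => (1 : ℝ) / (Nat.nth Nat.Prime (i + (m + 1)) : ℕ)) := by
    refine ((summable_nat_add_iff 1).2 h).congr ?_
    intro i
    rw [if_pos (isolated_prime m (i + 1) (by omega))]
    simp only
    rw [show m + (i + 1) = i + (m + 1) by ring]
  have h2 : Summable (fun i => (1 : ℝ) / (Nat.nth Nat.Prime i : ℕ)) := (summable_nat_add_iff (m + 1)).1 h1
  apply Nat.Primes.not_summable_one_div
  let e : ℕ ≃ Nat.Primes := Equiv.ofBijective (fun n => ⟨Nat.nth Nat.Prime n, hp n⟩) (by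
    constructor
    · intro x y hxy
      exact Nat.nth_injective hinf (congrArg Subtype.val hxy)
    · rintro ⟨p, hpp⟩
      obtain ⟨n, hn⟩ : p ∈ Set.range (Nat.nth Nat.Prime) := by
        rw [Nat.range_nth_of_infinite hinf]
        exact hpp
      exact ⟨n, Subtype.ext hn⟩)
  rw [← e.summable_iff]
  exact h2

lemma primes_mem (m : ℕ) : (fun i => Nat.nth Nat.Prime (m + i)) ∈ IsolatedFamily := by
  have hinf : (Set.ofPred Nat.Prime).Infinite := Nat.infinite_setOfPred_prime
  exact ⟨fun i => (Nat.nth_mem_of_infinite hinf (m + i)).pos, not_summable_primes m⟩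

theorem coprimeTerms_main :
    (∀ a ∈ IsolatedFamily, (∀ d, (∀ i, d ∣ a i) → d = 1) ∧
      ∃ δ : ℕ → ℝ, (∀ k, HasOddDensity a k (δ k)) ∧ Tendsto δ atTop (𝓝 (1 / 2))) ∧
    (∀ m : ℕ, (fun i => Nat.nth Nat.Prime (m + i)) ∈ IsolatedFamily) ∧
    {a | a ∈ IsolatedFamily ∧ StrictMono a}.Infinite := by
  have hinf : (Set.ofPred Nat.Prime).Infinite := Nat.infinite_setOfPred_prime
  refine ⟨fun a ha => isolated_main a ha.1 ha.2, primes_mem, ?_⟩
  apply Set.infinite_of_injective_forall_mem (f := fun (m i : ℕ) => Nat.nth Nat.Prime (m + i))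
  · intro m m' h
    have := Nat.nth_injective hinf (congrFun h 0)
    omega
  · intro m
    refine ⟨primes_mem m, ?_⟩
    intro x y hxy
    exact Nat.nth_strictMono hinf (by omega)

end Pool.Agent.Helper10.OddDensity
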